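import Pool.Agent.H80.JE.Targets
import Pool.Agent.H33.JD.FS

/-! FSS: one step of the one-sided barrier function. -/

set_option autoImplicit false

namespace Pool.Agent.H36.JE

open Finset Filter Topology Pool.Agent.H80.JD Pool.Agent.H80.JE

theorem fss : T_FSS := by
  intro B a x hB ha hBa hx
  have ha24 : 24 ≤ a := by
    by_contra h
    rw [not_le] at h
    have := div_lt_div_of_pos_left hB ha h
    linarith
  obtain ⟨hx1, hx2⟩ := abs_le.mp hx
  have hax : 0 < a + x := by linarith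
  refine ⟨hax, ?_⟩
  have hz : |(-(x / a))| ≤ 1 / 8 := by
    rw [abs_neg, abs_div, abs_of_pos ha, div_le_div_iff₀ ha (by norm_num)]
    linarith
  have hp := Pool.Agent.H33.JD.FS.poly_ineq (-(x / a)) hz
  have h1z : 1 - -(x / a) = (a + x) / a := by field_simp; ring
  rw [h1z] at hp
  have hq : (B / (a + x)) ^ 4 * ((a + x) / a) ^ 4 = (B / a) ^ 4 := by
    rw [← mul_pow]
    congr 1
    field_simp
  have h4 : 0 ≤ (B / (a + x)) ^ 4 := by positivity
  have h5 := mul_le_mul_of_nonneg_left hp h4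
  rw [mul_one, ← mul_assoc, hq] at h5
  refine h5.trans ?_
  have e1 : x * ww B a = (B / a) ^ 4 * (4 * (x / a)) := by
    rw [ww]; field_simp
  have e2 : (B / a) ^ 4 * (16 * (-(x / a)) ^ 2) = 16 * x ^ 2 / B ^ 2 * (B / a) ^ 6 := by
    field_simp
  have e3 : 16 * x ^ 2 / B ^ 2 * (B / a) ^ 6 ≤ 64 / B ^ 2 * (B / a) ^ 6 := by
    have : x ^ 2 ≤ 4 := by nlinarith
    gcongr
    linarith
  have e4 : (B / a) ^ 4 * (1 + 4 * -(x / a) + 16 * (-(x / a)) ^ 2) =
      (B / a) ^ 4 - (B / a) ^ 4 * (4 * (x / a)) + (B / a) ^ 4 * (16 * (-(x / a)) ^ 2) := by ring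
  rw [e4, ← e1, e2]
  linarith

end Pool.Agent.H36.JE
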